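import Pool.Agent.Work.MP_ab148e_al.Bounds

set_option autoImplicit false

open scoped Pointwise

namespace Pool.Agent.Results.MP_ab148e_al.DirectProductBound

open Pool.Agent.Work.MP_ab148e_al

/-- For all groups `G` and `H`, the smaller of the Tarski numbers of `G` and `H` is at most
`(𝒯(G × H) - 1) ^ 2 + 1`; in particular `𝒯(G) ≤ (𝒯(G × G) - 1) ^ 2 + 1`. -/
theorem result (G H : Type*) [Group G] [Group H] :
    min (tarski G) (tarski H) ≤ (tarski (G × H) - 1) ^ 2 + 1 := by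
  classical
  by_cases htop : tarski (G × H) = ⊤
  · rw [htop]
    simp
  obtain ⟨k, l, hkl, hT⟩ := exists_of_tarski_ne_top htop
  obtain ⟨S, T, hS, hT', h1S, h1T, hST⟩ := hkl.expands_one
  have hcast : (tarski (G × H) - 1) ^ 2 + 1 = (((k + l - 1) ^ 2 + 1 : ℕ) : ℕ∞) := by
    rw [hT]
    push_cast
    rfl
  rw [hcast]
  rcases hST.quadratic rfl rfl rfl rfl rfl rfl with h | h
  · refine (min_le_left _ _).trans ((tarski_le h.paradox).trans ?_)
    rw [Nat.cast_le]
    set P₁ := S.image Prod.fst with hP₁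
    set P₂ := T.image Prod.fst with hP₂
    have m1 : 1 ∈ P₁ := Finset.mem_image.2 ⟨1, h1S, rfl⟩
    have m2 : 1 ∈ P₂ := Finset.mem_image.2 ⟨1, h1T, rfl⟩
    have m3 : 1 ∈ P₁ ∪ P₂ := Finset.mem_union_left _ m1
    have c1 := card_mul_le_sub m3 Finset.subset_union_left m1
    have c2 := card_mul_le_sub m3 Finset.subset_union_right m2
    have c3 : (P₁ ∪ P₂).card + 1 ≤ P₁.card + P₂.card := by
      have := Finset.card_union_add_card_inter P₁ P₂
      have h4 : 1 ≤ (P₁ ∩ P₂).card := Finset.card_pos.2 ⟨1, Finset.mem_inter.2 ⟨m1, m2⟩⟩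
      omega
    have c4 : P₁.card + P₂.card ≤ k + l :=
      add_le_add (Finset.card_image_le.trans hS) (Finset.card_image_le.trans hT')
    exact arith (Finset.card_pos.2 ⟨1, m3⟩) c3 c4 c1 c2
  · refine (min_le_right _ _).trans ((tarski_le h.paradox).trans ?_)
    rw [Nat.cast_le]
    set Q₁ := S.image Prod.snd with hQ₁
    set Q₂ := T.image Prod.snd with hQ₂
    have m1 : 1 ∈ Q₁ := Finset.mem_image.2 ⟨1, h1S, rfl⟩
    have m2 : 1 ∈ Q₂ := Finset.mem_image.2 ⟨1, h1T, rfl⟩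
    have m3 : 1 ∈ Q₁ ∪ Q₂ := Finset.mem_union_left _ m1
    have c1 := card_mul_le_sub' m3 Finset.subset_union_left m1
    have c2 := card_mul_le_sub' m3 Finset.subset_union_right m2
    have c3 : (Q₁ ∪ Q₂).card + 1 ≤ Q₁.card + Q₂.card := by
      have := Finset.card_union_add_card_inter Q₁ Q₂
      have h4 : 1 ≤ (Q₁ ∩ Q₂).card := Finset.card_pos.2 ⟨1, Finset.mem_inter.2 ⟨m1, m2⟩⟩
      omega
    have c4 : Q₁.card + Q₂.card ≤ k + l :=
      add_le_add (Finset.card_image_le.trans hS) (Finset.card_image_le.trans hT')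
    exact arith (Finset.card_pos.2 ⟨1, m3⟩) c3 c4 c1 c2

end Pool.Agent.Results.MP_ab148e_al.DirectProductBound
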