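import Pool.Agent.Work.MP_ab148e_al.Basic
import Pool.Agent.Work.TSQ.Strong

set_option autoImplicit false

namespace Pool.Agent.Results.MP_ab148e_al.SquareFiveSix

open Pool.Agent.Work.MP_ab148e_al

/-- There is a finitely generated group `G` with `𝒯(G × G) ≤ 5` and `𝒯(G) ≥ 6`; in particular
`𝒯(G × G) < 𝒯(G)`. -/
theorem result : ∃ (G : Type) (_ : Group G), Group.FG G ∧
    tarski (G × G) ≤ 5 ∧ 6 ≤ tarski G ∧ tarski (G × G) < tarski G := by
  obtain ⟨G, _, hfg, ⟨k, l, A, B, g, h, hkl, h1, h2, h3, h4, h5⟩, hno⟩ := TSq.strong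
  have e1 : tarski (G × G) ≤ 5 := by
    refine (tarski_le ⟨A, B, g, h, h1, h2, h3, h4, h5⟩).trans ?_
    exact_mod_cast hkl
  have e2 : 6 ≤ tarski G := by
    unfold tarski
    refine le_iInf fun k => le_iInf fun l => le_iInf fun hP => ?_
    obtain ⟨A, B, g, h, h1, h2, h3, h4, h5⟩ := hP
    by_contra hlt
    push Not at hlt
    have hkl : k + l < 6 := by exact_mod_cast hlt
    exact hno ⟨k, l, A, B, g, h, by omega, h1, h2, h3, h4, h5⟩
  exact ⟨G, inferInstance, hfg, e1, e2, lt_of_le_of_lt e1 (lt_of_lt_of_le (by norm_num) e2)⟩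

end Pool.Agent.Results.MP_ab148e_al.SquareFiveSix
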