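import Pool.Agent.Work.MP_ab148e_al.Bounds

set_option autoImplicit false

open scoped Pointwise

namespace Pool.Agent.Results.MP_ab148e_al.TwoPieceSide

open Pool.Agent.Work.MP_ab148e_al

section count

variable {G : Type*} [Group G] [DecidableEq G]

lemma subset_pair {P : Finset G} (h1 : 1 ∈ P) (h2 : P.card ≤ 2) : ∃ a : G, P ⊆ {1, a} := by
  have h3 : (P.erase 1).card ≤ 1 := by
    rw [Finset.card_erase_of_mem h1]; omega
  rcases Finset.card_le_one_iff_subset_singleton.1 h3 with ⟨a, ha⟩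
  refine ⟨a, fun z hz => ?_⟩
  by_cases hz1 : z = 1
  · simp [hz1]
  · have := ha (Finset.mem_erase.2 ⟨hz1, hz⟩)
    rw [Finset.mem_singleton] at this
    simp [this]

lemma sq_subset (a : G) : ({1, a} : Finset G) * {1, a} ⊆ {1, a, a * a} := by
  intro z hz
  rw [Finset.mem_mul] at hz
  obtain ⟨x, hx, y, hy, rfl⟩ := hz
  simp only [Finset.mem_insert, Finset.mem_singleton] at hx hy ⊢
  rcases hx with rfl | rfl <;> rcases hy with rfl | rfl <;> simp

lemma cube_subset (a : G) :
    ({1, a, a * a} : Finset G) * {1, a} ⊆ {1, a, a * a, a * a * a} := by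
  intro z hz
  rw [Finset.mem_mul] at hz
  obtain ⟨x, hx, y, hy, rfl⟩ := hz
  simp only [Finset.mem_insert, Finset.mem_singleton] at hx hy ⊢
  rcases hx with rfl | rfl | rfl <;> rcases hy with rfl | rfl <;> simp

lemma card_sq {P : Finset G} (h1 : 1 ∈ P) (h2 : P.card ≤ 2) : (P * P).card ≤ 3 := by
  obtain ⟨a, ha⟩ := subset_pair h1 h2
  exact (Finset.card_le_card ((Finset.mul_subset_mul ha ha).trans (sq_subset a))).trans
    Finset.card_le_three

lemma card_cube {P : Finset G} (h1 : 1 ∈ P) (h2 : P.card ≤ 2) : (P * P * P).card ≤ 4 := by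
  obtain ⟨a, ha⟩ := subset_pair h1 h2
  exact (Finset.card_le_card ((Finset.mul_subset_mul ((Finset.mul_subset_mul ha ha).trans
    (sq_subset a)) ha).trans (cube_subset a))).trans Finset.card_le_four

/-- `P * P * (P ∪ Q)` has at most `3 |Q| + 1` elements when `P ⊆ {1, a}` and `1 ∈ Q`. -/
lemma card_cube_union {P Q : Finset G} (h1 : 1 ∈ P) (h2 : P.card ≤ 2) (hQ : 1 ∈ Q) :
    (P * P * (P ∪ Q)).card ≤ 3 * Q.card + 1 := by
  have h3 : P * P * (P ∪ Q) ⊆ P * P * P ∪ P * P * (Q.erase 1) := by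
    rw [Finset.mul_union]
    apply Finset.union_subset Finset.subset_union_left
    intro z hz
    rw [Finset.mem_mul] at hz
    obtain ⟨x, hx, y, hy, rfl⟩ := hz
    by_cases hy1 : y = 1
    · apply Finset.mem_union_left
      rw [hy1]
      exact Finset.mul_mem_mul hx h1
    · apply Finset.mem_union_right
      exact Finset.mul_mem_mul hx (Finset.mem_erase.2 ⟨hy1, hy⟩)
  have h4 : 1 ≤ Q.card := Finset.card_pos.2 ⟨1, hQ⟩
  calc (P * P * (P ∪ Q)).card ≤ (P * P * P).card + (P * P * (Q.erase 1)).card :=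
        (Finset.card_le_card h3).trans (Finset.card_union_le _ _)
    _ ≤ 4 + 3 * (Q.card - 1) := by
        apply add_le_add (card_cube h1 h2)
        refine Finset.card_mul_le.trans ?_
        rw [Finset.card_erase_of_mem hQ]
        exact Nat.mul_le_mul_right _ (card_sq h1 h2)
    _ = 3 * Q.card + 1 := by omega

end count

/-- If `G × H` has a paradoxical decomposition with two pieces on one side and `l` pieces on the
other, then the Tarski number of `G` is at most `5 l + 1` or that of `H` is at most `4 l + 3`. -/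
theorem result (G H : Type*) [Group G] [Group H] (l : ℕ) (h : Paradox (G × H) 2 l) :
    tarski G ≤ ((5 * l + 1 : ℕ) : ℕ∞) ∨ tarski H ≤ ((4 * l + 3 : ℕ) : ℕ∞) := by
  classical
  obtain ⟨S, T, hS, hT, h1S, h1T, hST⟩ := h.expands_one
  set P₁ := S.image Prod.fst with hP₁
  set P₂ := T.image Prod.fst with hP₂
  set Q₁ := S.image Prod.snd with hQ₁
  set Q₂ := T.image Prod.snd with hQ₂
  have p1 : 1 ∈ P₁ := Finset.mem_image.2 ⟨1, h1S, rfl⟩
  have p2 : 1 ∈ P₂ := Finset.mem_image.2 ⟨1, h1T, rfl⟩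
  have q1 : 1 ∈ Q₁ := Finset.mem_image.2 ⟨1, h1S, rfl⟩
  have q2 : 1 ∈ Q₂ := Finset.mem_image.2 ⟨1, h1T, rfl⟩
  have cP₁ : P₁.card ≤ 2 := Finset.card_image_le.trans hS
  have cQ₁ : Q₁.card ≤ 2 := Finset.card_image_le.trans hS
  have cP₂ : P₂.card ≤ l := Finset.card_image_le.trans hT
  have cQ₂ : Q₂.card ≤ l := Finset.card_image_le.trans hT
  rcases hST.linear p1 q1 hP₁ hP₂ rfl hQ₁ hQ₂ with h | h
  · left
    refine (tarski_le h.paradox).trans ?_
    rw [Nat.cast_le]
    have c1 := card_cube_union p1 cP₁ p2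
    have c2 : (P₁ * P₂).card ≤ 2 * P₂.card :=
      Finset.card_mul_le.trans (Nat.mul_le_mul_right _ cP₁)
    omega
  · right
    refine (tarski_le h.paradox).trans ?_
    rw [Nat.cast_le]
    have c1 : (Q₁ * Q₁ * Q₁ ∪ Q₂).card ≤ 4 + (Q₂.card - 1) := by
      have h3 : Q₁ * Q₁ * Q₁ ∪ Q₂ ⊆ Q₁ * Q₁ * Q₁ ∪ Q₂.erase 1 := by
        apply Finset.union_subset Finset.subset_union_left
        intro z hz
        by_cases hz1 : z = 1
        · apply Finset.mem_union_left
          rw [hz1, Finset.mem_mul]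
          refine ⟨1, ?_, 1, q1, one_mul 1⟩
          rw [Finset.mem_mul]
          exact ⟨1, q1, 1, q1, one_mul 1⟩
        · exact Finset.mem_union_right _ (Finset.mem_erase.2 ⟨hz1, hz⟩)
      refine (Finset.card_le_card h3).trans ((Finset.card_union_le _ _).trans ?_)
      rw [Finset.card_erase_of_mem q2]
      exact add_le_add (card_cube q1 cQ₁) le_rfl
    have c2 : (Q₁ * Q₁ * Q₂).card ≤ 3 * Q₂.card :=
      Finset.card_mul_le.trans (Nat.mul_le_mul_right _ (card_sq q1 cQ₁))
    have c3 : 1 ≤ Q₂.card := Finset.card_pos.2 ⟨1, q2⟩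
    omega

end Pool.Agent.Results.MP_ab148e_al.TwoPieceSide
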